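import Pool.Agent.helper17.EXT.Spec

/-!
# MP_561ff4_al, row ft:WPS: pairs of roots in one orbit of the relative Weyl group
-/

set_option autoImplicit false

open Finset

namespace Pool.Agent.EXT

open Pool.Agent.EXC

theorem WPS_sgn (a b : ℤ) (ha : a = 1 ∨ a = -1) (hb : b = 1 ∨ b = -1) : a * b = 1 ∨ a * b = -1 := by
  rcases ha with rfl | rfl <;> rcases hb with rfl | rfl <;> simp

theorem WPS (hNRS : NRS_stmt) (hGEP : GEP_stmt) (hWST : WST_stmt) : WPS_stmt := by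
  intro K _ τ hτ α β α' β' hα hβ h
  have key : ∀ p : (Fin 6 → ℤ) × (Fin 6 → ℤ), WS (α, β) p → ∃ g ∈ GS τ, ∃ s s' : ℤ, (s = 1 ∨ s = -1) ∧
      (s' = 1 ∨ s' = -1) ∧ g (E C6 α) = (s : K) • (E C6 p.1 : Lm C6 K) ∧
      g (E C6 β) = (s' : K) • (E C6 p.2 : Lm C6 K) := by
    intro p hp
    induction hp with
    | refl =>
      exact ⟨1, one_mem _, 1, 1, Or.inl rfl, Or.inl rfl, by simp, by simp⟩
    | @tail b c hb hc ih =>
      obtain ⟨g, hg, s, s', hs, hs', e1, e2⟩ := ih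
      obtain ⟨i, rfl⟩ := hc
      obtain ⟨k, hk, hkk⟩ := hNRS K τ hτ i
      have h3 := hWST.2.2 (α, β) b hb
      have h4 : ip C6 b.1 b.1 = 2 := by rw [h3.2.1]; exact hα
      have h5 : ip C6 b.2 b.2 = 2 := by rw [h3.2.2.1]; exact hβ
      obtain ⟨s1, hs1, f1⟩ := hkk b.1 h4
      obtain ⟨s2, hs2, f2⟩ := hkk b.2 h5
      have hkG : k ∈ GS τ := by
        rw [hGEP K τ hτ]
        exact hk
      refine ⟨k * g, mul_mem hkG hg, s * s1, s' * s2, WPS_sgn _ _ hs hs1, WPS_sgn _ _ hs' hs2, ?_, ?_⟩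
      · have h6 : (k * g) (E C6 α) = k (g (E C6 α)) := rfl
        rw [h6, e1, map_smul, f1, smul_smul]
        push_cast
        rfl
      · have h6 : (k * g) (E C6 β) = k (g (E C6 β)) := rfl
        rw [h6, e2, map_smul, f2, smul_smul]
        push_cast
        rfl
  exact key (α', β') h

end Pool.Agent.EXT
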