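import Pool.Agent.helper32.EXT.Spec7

/-!
# Project EXT (MP_561ff4_al), block H (r = 7), row Z72 (helper90)
-/

set_option autoImplicit false

open Finset

namespace Pool.Agent.EXT

open Pool.Agent.EXC

theorem Z72_pack {X : Type} [Group X] (P : X → Prop) (y0 y1 y2 : X) (h0 : P y0) (h1 : P y1) (h2 : P y2)
    (h : ∀ N : ℕ, (y0 * y1 * y2⁻¹) ^ N = 1 → 7 ∣ N) :
    ∃ y : Fin 3 → X, (∀ i, P (y i)) ∧ ∀ N : ℕ, (y 0 * y 1 * (y 2)⁻¹) ^ N = 1 → 7 ∣ N := by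
  refine ⟨![y0, y1, y2], ?_, h⟩
  intro i
  fin_cases i
  · exact h0
  · exact h1
  · exact h2

theorem Z72_h1 {X : Type} [Group X] (t0 t1 t2 a a' d : X) (h : t2 * a = a')
    (hz : ∀ N : ℕ, (t0 * t1 * t2) ^ N = 1 → 7 ∣ N) (N : ℕ)
    (hN : (t0 * t1 * (a' * d) * (a * d)⁻¹) ^ N = 1) : 7 ∣ N := by
  have e : t0 * t1 * (a' * d) * (a * d)⁻¹ = t0 * t1 * t2 := by
    subst h
    group
  rw [e] at hN
  exact hz N hN

theorem Z72_h2 {X : Type} [Group X] (t0 t1 t2 b S R : X) (h : S * R = t0)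
    (hz : ∀ N : ℕ, (t0 * t1 * t2) ^ N = 1 → 7 ∣ N) (N : ℕ)
    (hN : (R * t1 * (t2 * b) * (S⁻¹ * b)⁻¹) ^ N = 1) : 7 ∣ N := by
  have e : R * t1 * (t2 * b) * (S⁻¹ * b)⁻¹ = S⁻¹ * (t0 * t1 * t2) * S⁻¹⁻¹ := by
    subst h
    group
  rw [e, conj_pow] at hN
  have e3 := (mul_inv_eq_one.1 hN)
  exact hz N (mul_eq_left.1 e3)

section
variable {K : Type} [Field K]

theorem Z72_fm_smul_left (c : K) (x y : Lm C6 K) : fm C6 (c • x) y = c * fm C6 x y := by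
  simp only [fm, Prod.smul_fst, Prod.smul_snd, Pi.smul_apply, smul_eq_mul, mul_add, Finset.mul_sum,
    mul_neg]
  congr 1
  · congr 1
    exact Finset.sum_congr rfl fun i _ => Finset.sum_congr rfl fun j _ => by ring
  · exact Finset.sum_congr rfl fun i _ => by ring

theorem Z72_xe_zero (a v : Lm C6 K) : xe C6 a 0 v = v := by
  unfold xe
  simp

theorem Z72_uniq {τ : K ≃+* K} {a : Lm C6 K} {t : K} {f f' : GF τ}
    (h : IsF τ a t (f : Equiv.Perm (LT τ))) (h' : IsF τ a t (f' : Equiv.Perm (LT τ))) : f = f' := by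
  apply Subtype.ext
  apply Equiv.ext
  intro v
  apply Subtype.ext
  rw [h v, h' v]

theorem Z72_one {τ : K ≃+* K} {a : Lm C6 K} {f : GF τ}
    (h : IsF τ a 0 (f : Equiv.Perm (LT τ))) : f = 1 := by
  apply Subtype.ext
  apply Equiv.ext
  intro v
  apply Subtype.ext
  rw [h v, Z72_xe_zero]
  rfl

end

theorem Z72 (hTE7 : TE7_stmt) (hCV7 : CV7_stmt) (hOR7 : OR7_stmt) (hWA7 : WA7_stmt) (hBXS : BXS_stmt) (hSLS : SLS_stmt) (hESF : ESF_stmt) (hGFX : GFX_stmt) (hSIG : SIG_stmt) : Z72_stmt := by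
  intro K _ τ hτ σ hσ hσ0
  have hTE := hTE7 K τ hτ
  obtain ⟨cv1, cv2⟩ := hCV7 K
  have hES := (hESF K τ hτ).2
  have hGF := (hGFX K τ hτ).2
  have hC : ∀ i, ExS τ (c7 K i) := fun i => (hTE i).1
  have τ1 : τ 1 = 1 := map_one τ
  -- scalars, inverses
  have hsc : ∀ (a : Lm C6 K) (c : K) (f : GF τ), ExS τ a → IsF τ a c (f : Equiv.Perm (LT τ)) →
      IsF τ (c • a) 1 (f : Equiv.Perm (LT τ)) := by
    intro a c f ha hf v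
    have hEx : Ex C6 a := (hES a ha).1
    have hX : Xtr C6 a := ((f_EXF 6 C6 K hb6).2.2.1 a hEx).1
    rw [hf v, ((f_XAU 6 C6 K a hX).2.2.2 c).2 1 v, mul_one]
  have hxs : ∀ (a : Lm C6 K) (c : K), ExS τ a → τ c = c → ∃ f : GF τ, IsF τ a c (f : Equiv.Perm (LT τ)) := by
    intro a c ha hc
    obtain ⟨f, hf, hf2⟩ := (hGF a ha).1 c hc
    exact ⟨⟨f, hf⟩, hf2⟩
  have hadd : ∀ (a : Lm C6 K) (s t : K) (f f' : GF τ), ExS τ a → IsF τ a s (f : Equiv.Perm (LT τ)) →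
      IsF τ a t (f' : Equiv.Perm (LT τ)) → IsF τ a (s + t) ((f * f' : GF τ) : Equiv.Perm (LT τ)) := by
    intro a s t f f' ha h h'
    exact (hGF a ha).2.2.1 s t f f' h h'
  have hinv : ∀ (a : Lm C6 K) (c : K) (f : GF τ), ExS τ a → τ c = c → IsF τ a c (f : Equiv.Perm (LT τ)) →
      IsF τ a (-c) ((f⁻¹ : GF τ) : Equiv.Perm (LT τ)) := by
    intro a c f ha hc hf
    obtain ⟨f', hf'⟩ := hxs a (-c) ha (by rw [map_neg, hc])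
    have h1 := hadd a c (-c) f f' ha hf hf'
    rw [add_neg_cancel] at h1
    have h2 : f' = f⁻¹ := eq_inv_of_mul_eq_one_right (Z72_one h1)
    rw [← h2]
    exact hf'
  have hsm : ∀ (a : Lm C6 K) (c : K), ExS τ a → τ c = c → c ≠ 0 → ExS τ (c • a) :=
    fun a c ha hc hc0 => (hES a ha).2.2.2.2.1 c hc hc0
  -- the three root elements
  obtain ⟨T0, hT0⟩ := hxs (c7 K 0) 1 (hC 0) τ1
  obtain ⟨T1, hT1⟩ := hxs (c7 K 1) 1 (hC 1) τ1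
  obtain ⟨T2, hT2⟩ := hxs (c7 K 2) 1 (hC 2) τ1
  have hgw : gw7 0 (1 : K) zt7 = gw7 0 (1 : K) (tw7 0) * gw7 0 (1 : K) (tw7 1) * gw7 0 (1 : K) (tw7 2) := by
    unfold zt7
    rw [(hWA7 K τ hτ 0 1 τ1 one_ne_zero _ (tw7 2)).2.2.1, (hWA7 K τ hτ 0 1 τ1 one_ne_zero _ (tw7 1)).2.2.1]
  have hzN : ∀ N : ℕ, (T0 * T1 * T2) ^ N = 1 → 7 ∣ N := by
    intro N hN
    refine hOR7 K τ hτ 0 1 τ1 one_ne_zero 7 zt7 (by norm_num) zt7_7.1 zt7_7.2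
      ((T0 * T1 * T2 : GF τ) : Equiv.Perm (LT τ)) ?_ N ?_
    · intro v
      have e : (((T0 * T1 * T2 : GF τ) : Equiv.Perm (LT τ)) v : Lm C6 K) =
          ((T0 : Equiv.Perm (LT τ)) ((T1 : Equiv.Perm (LT τ)) ((T2 : Equiv.Perm (LT τ)) v)) : LT τ) := rfl
      rw [e, hT0, hT1, hT2, hgw]
      have e2 : (gw7 0 (1 : K) (tw7 0) * gw7 0 (1 : K) (tw7 1) * gw7 0 (1 : K) (tw7 2)) (v : Lm C6 K) =
          gw7 0 (1 : K) (tw7 0) (gw7 0 (1 : K) (tw7 1) (gw7 0 (1 : K) (tw7 2) (v : Lm C6 K))) := rfl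
      rw [e2, (hTE 2).2, (hTE 1).2, (hTE 0).2]
    · have h1 := congrArg (Subtype.val) hN
      exact h1
  have hY : ∀ (a b : Lm C6 K) (f g : GF τ), ExS τ a → ExS τ b → fm C6 a b = σ →
      IsF τ a 1 (f : Equiv.Perm (LT τ)) → IsF τ b 1 (g : Equiv.Perm (LT τ)) →
      ∃ a b, ExS τ a ∧ ExS τ b ∧ fm C6 a b = σ ∧ Y7 τ a b (f * g) :=
    fun a b f g ha hb hab hf hg => ⟨a, b, ha, hb, hab, f, g, hf, hg, rfl⟩
  by_cases hs : 1 - σ = 0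
  · have hσ1 : σ = 1 := (sub_eq_zero.1 hs).symm
    have hy0 := hY (c7 K 0) (c7 K 1) T0 T1 (hC 0) (hC 1) (by rw [cv1, hσ1]) hT0 hT1
    obtain ⟨a, d, a', ha, hd, ha', had, ha'd, hx⟩ := hSLS K τ hτ (c7 K 2) σ (hC 2) hσ hσ0
    obtain ⟨xa, hxa⟩ := hxs a 1 ha τ1
    obtain ⟨xa', hxa'⟩ := hxs a' 1 ha' τ1
    obtain ⟨xd, hxd⟩ := hxs d 1 hd τ1
    have hy1 := hY a' d xa' xd ha' hd ha'd hxa' hxd
    have hy2 := hY a d xa xd ha hd had hxa hxd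
    have e1 : T2 * xa = xa' := by
      apply Subtype.ext
      apply Equiv.ext
      intro v
      apply Subtype.ext
      have e : (((T2 * xa : GF τ) : Equiv.Perm (LT τ)) v : Lm C6 K) =
          ((T2 : Equiv.Perm (LT τ)) ((xa : Equiv.Perm (LT τ)) v) : LT τ) := rfl
      rw [e, hT2, hxa, hx, hxa' v]
    exact Z72_pack (fun y : GF τ => ∃ a b, ExS τ a ∧ ExS τ b ∧ fm C6 a b = σ ∧ Y7 τ a b y) _ _ _ hy0 hy1 hy2 (Z72_h1 _ _ _ xa xa' xd e1 hzN)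
  · have hs' : τ (1 - σ) = 1 - σ := by rw [map_sub, τ1, hσ]
    obtain ⟨S, hS⟩ := hxs (c7 K 0) (1 - σ) (hC 0) hs'
    obtain ⟨R, hR⟩ := hxs (c7 K 0) σ (hC 0) hσ
    have hSR : S * R = T0 := by
      have h1 := hadd (c7 K 0) (1 - σ) σ S R (hC 0) hS hR
      rw [sub_add_cancel] at h1
      exact Z72_uniq h1 hT0
    have hy0 := hY (σ • c7 K 0) (c7 K 1) R T1 (hsm _ σ (hC 0) hσ hσ0) (hC 1)
      (by rw [Z72_fm_smul_left, cv1, mul_one]) (hsc _ _ _ (hC 0) hR) hT1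
    have hns : τ (-(1 - σ)) = -(1 - σ) := by rw [map_neg, hs']
    have hEn : ExS τ ((-(1 - σ)) • c7 K 0) := hsm _ _ (hC 0) hns (neg_ne_zero.2 hs)
    obtain ⟨b, hb, hb2, hb0⟩ := hBXS K τ hτ (c7 K 2) ((-(1 - σ)) • c7 K 0) (hC 2) hEn
      (fun κ => cv2 κ (-(1 - σ)) (neg_ne_zero.2 hs)) σ σ hσ hσ hσ0 hσ0
    obtain ⟨xb, hxb⟩ := hxs b 1 hb τ1
    have hy1 := hY (c7 K 2) b T2 xb (hC 2) hb hb2 hT2 hxb
    have hy2 := hY ((-(1 - σ)) • c7 K 0) b S⁻¹ xb hEn hb hb0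
      (hsc _ _ _ (hC 0) (hinv _ _ _ (hC 0) hs' hS)) hxb
    exact Z72_pack (fun y : GF τ => ∃ a b, ExS τ a ∧ ExS τ b ∧ fm C6 a b = σ ∧ Y7 τ a b y) _ _ _ hy0 hy1 hy2 (Z72_h2 _ _ _ xb S R hSR hzN)

end Pool.Agent.EXT
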